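import Mathlib
import Pool.Agent.Run7.h257.Defs

/-!
Corollary of the infinitude of non-Wieferich primes (base `2`): infinitely many primes have
property (P89).
-/

namespace Run7.h999

open Run7.h257

/-- If not all large primes are Wieferich primes, then infinitely many primes have property
(P89). -/
theorem p89_of (h : ∀ P₀, ¬ Wief P₀) :
    Set.Infinite {p : ℕ | p.Prime ∧ p ≠ 2 ∧
      ∃ k : ℤ, ¬ ((p : ℤ) ∣ k) ∧
        ∃ a ∈ Nat.smoothNumbers 90, ∃ b ∈ Nat.smoothNumbers 90,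
          (k * (p : ℤ) = (a : ℤ) + (b : ℤ) ∨ k * (p : ℤ) = (a : ℤ) - (b : ℤ))} := by
  refine Set.infinite_of_forall_exists_gt fun B => ?_
  have h0 := h (B + 2)
  unfold Wief at h0
  push Not at h0
  obtain ⟨p, hp, hB, hnd⟩ := h0
  have hc : Nat.Coprime 2 p := by
    rw [Nat.coprime_primes Nat.prime_two hp]
    omega
  have hdv : p ∣ 2 ^ (p - 1) - 1 := by
    have h1 := Nat.ModEq.pow_totient hc
    rw [Nat.totient_prime hp] at h1
    exact (Nat.modEq_iff_dvd' Nat.one_le_two_pow).mp h1.symm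
  obtain ⟨k, hk⟩ := hdv
  refine ⟨p, ⟨hp, by omega, (k : ℤ), ?_, 2 ^ (p - 1), ?_, 1, ?_, Or.inr ?_⟩, by omega⟩
  · intro hpk
    have hpk' : p ∣ k := by exact_mod_cast hpk
    apply hnd
    rw [hk, pow_two]
    exact Nat.mul_dvd_mul_left p hpk'
  · rw [Nat.mem_smoothNumbers']
    intro q hq hqd
    have h2 := hq.dvd_of_dvd_pow hqd
    have := Nat.le_of_dvd (by norm_num) h2
    omega
  · rw [Nat.mem_smoothNumbers']
    intro q hq hqd
    have := Nat.le_of_dvd (by norm_num) hqd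
    have := hq.two_le
    omega
  · have h1 : 1 ≤ 2 ^ (p - 1) := Nat.one_le_two_pow
    have h2 : 2 ^ (p - 1) = p * k + 1 := by omega
    have h3 : ((2 ^ (p - 1) : ℕ) : ℤ) = (p : ℤ) * k + 1 := by
      rw [h2]; push_cast; ring
    rw [h3]
    push_cast
    ring

end Run7.h999
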